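import Pool.Agent.helper14.TW.FAM0

/-!
# Project TW, block H: the families of characters of odd order, and all characters without Siegel zeros
-/

set_option autoImplicit false

open Complex
open scoped ComplexConjugate

namespace Pool.Agent.TW

open Pool.Agent.TWG (Good GC LL)
open DirichletCharacter

theorem ODD : ODD_stmt := by
  intro c₀
  refine ⟨fun x hx => hx.1, fun x hx => hx.2.1, ?_⟩
  rintro x ⟨hx0, hx, hxo⟩ y ⟨hy0, hy, hyo⟩ hxy
  left
  intro h2
  apply FAM_ne x y hx0 hy0 hx hy hxy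
  set ψ := DirichletCharacter.mul (x.2)⁻¹ y.2 with hψ
  have h3 : ψ ^ 2 = 1 := by
    have h4 : changeLevel ψ.conductor_dvd_level ψ.primitiveCharacter = ψ := changeLevel_primitiveCharacter ψ
    have h5 : (ψ.primitiveCharacter) ^ 2 = 1 := h2
    rw [← h4, ← map_pow, h5, map_one]
  obtain ⟨a, ha⟩ := hxo
  obtain ⟨b, hb⟩ := hyo
  have h6 : (x.2)⁻¹ ^ (orderOf x.2 * orderOf y.2) = 1 := by
    rw [pow_mul, inv_pow, pow_orderOf_eq_one, inv_one, one_pow]
  have h7 : y.2 ^ (orderOf x.2 * orderOf y.2) = 1 := by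
    rw [mul_comm, pow_mul, pow_orderOf_eq_one, one_pow]
  have h8 : ψ ^ (orderOf x.2 * orderOf y.2) = 1 := by
    rw [hψ]
    unfold DirichletCharacter.mul
    rw [mul_pow, ← map_pow, ← map_pow, h6, h7, map_one, map_one, one_mul]
  have h9 : orderOf x.2 * orderOf y.2 = 2 * (2 * a * b + a + b) + 1 := by
    rw [ha, hb]
    ring
  rw [h9, pow_succ, pow_mul, h3, one_pow, one_mul] at h8
  exact h8

theorem NSZ : NSZ_stmt := by
  intro c₀ h
  refine ⟨fun x hx => hx.1, fun x hx => hx.2, ?_⟩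
  rintro x ⟨hx0, hx⟩ y ⟨hy0, hy⟩ hxy
  by_cases h2 : (quo x y) ^ 2 = 1
  · right
    exact h _ (quo x y) (FAM_cond x y hx0 hy0 hx hy hxy).1 (primitive_mul_isPrimitive _ _) h2
  · left
    exact h2

end Pool.Agent.TW
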