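import Pool.Agent.helper14.TW.FAM0

/-!
# Project TW, block H: the families of characters with bounded ramification
-/

set_option autoImplicit false

open Complex
open scoped ComplexConjugate

namespace Pool.Agent.TW

open Pool.Agent.TWG (Good GC LL)
open DirichletCharacter

/-- the statement of helper40 (row GOODS) -/
def GOODS_stmt : Prop := ∀ m : ℕ, 0 < m → ∃ c₀ : ℝ, 0 < c₀ ∧ ∀ (q : ℕ) (χ : DirichletCharacter ℂ q), 2 ≤ q →
  χ.IsPrimitive → (∀ p : ℕ, p.Prime → p ∣ q → p ∣ m) → Good c₀ χ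

theorem RAM (hG : GOODS_stmt) : RAM_stmt := by
  intro m hm
  obtain ⟨c₀, hc₀, h⟩ := hG m hm
  refine ⟨c₀, hc₀, fun x hx => hx.1, fun x hx => hx.2.1, ?_⟩
  rintro x ⟨hx0, hx, hxm⟩ y ⟨hy0, hy, hym⟩ hxy
  refine h _ (quo x y) (FAM_cond x y hx0 hy0 hx hy hxy).1 (primitive_mul_isPrimitive _ _) fun p hp hpd => ?_
  have h1 : p ∣ Nat.lcm x.1 y.1 := hpd.trans (conductor_dvd_level _)
  rcases (Nat.Prime.dvd_mul hp).mp (h1.trans (Nat.lcm_dvd_mul _ _)) with h2 | h2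
  · exact hxm p hp h2
  · exact hym p hp h2

end Pool.Agent.TW
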