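import Pool.Agent.helper14.TW.FAM
import Pool.Agent.helper14.TW.ODD
import Pool.Agent.helper14.TW.RAM
import Pool.Agent.helper40.TW.AllG
import Pool.Agent.helper40.TW.GOODS

/-!
# Project TW, block H, closed (`ODD : ODD_stmt` and `NSZ : NSZ_stmt` are closed as well)
-/

set_option autoImplicit false

namespace Pool.Agent.TW

theorem tw_FAM : FAM_stmt := FAM Pool.Agent.TWG.a_GAL

theorem tw_GOODS : GOODS_stmt := fun m hm => Pool.Agent.TWG.GOODS Pool.Agent.TWG.a_ZFI m hm

theorem tw_RAM : RAM_stmt := RAM tw_GOODS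

end Pool.Agent.TW
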