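import Pool.Agent.helper14.TW.SpecK
import Pool.Agent.helper14.ZT.GVC

/-!
# Project TW, row K1
-/

set_option autoImplicit false

open Complex MeasureTheory Set

namespace Pool.Agent.TW

open Pool.Agent.BA (Par GG kf vf fV)
open Pool.Agent.ZT (VV gC Bn MC fP GDC_stmt BNW_stmt GVC_D GVC_dom GVC_re GVC_im GVC_nm)

theorem K1 (hLAJ : LAJ_stmt) (hGDC : GDC_stmt) (hBNW : BNW_stmt) (bOR : Pool.Agent.BA.OR_stmt)
    (bKC : Pool.Agent.BA.KC_stmt) (bVD : Pool.Agent.BA.VD_stmt) : K1_stmt := by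
  intro Jd n μ hJ7 hJn hμ
  have hμ1 : Par 1 μ := ⟨by omega, hμ⟩
  obtain ⟨CA, hCA, hLA⟩ := hLAJ Jd n μ hJ7 hJn hμ
  obtain ⟨hOR1, hOR2, hOR3⟩ := bOR n μ hμ1
  obtain ⟨Ck, hCk, hkb⟩ := bKC n 0 μ (1 / 20) hμ1 (by norm_num)
  obtain ⟨CB, hCB, hB⟩ := hBNW n
  have hvj : ∀ j : ℕ, ∃ C : ℝ, 0 < C ∧ ∀ x : ℝ, 0 < x → |vf μ j x| ≤ C * x ^ (-(3 / 5) : ℝ) := by
    intro j
    exact (bVD n j μ hμ1).2 (3 / 5) (by norm_num)
  choose Cv hCv hvb using hvj
  obtain ⟨Cw, hCw, hwb⟩ := (bVD n 0 μ hμ1).2 2 (by norm_num)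
  set Iv : ℝ := ∫ x in Ioi (0 : ℝ), vf μ 0 x * kf μ 0 x with hIv
  set J : ℝ := ∫ x in Ioi (0 : ℝ), GVC_D (Cv 0) Cw x with hJ
  have hJ0 : 0 ≤ J := by
    rw [hJ]
    apply setIntegral_nonneg measurableSet_Ioi
    intro x hx
    unfold GVC_D
    split_ifs
    · exact mul_nonneg (hCv 0).le (Real.rpow_nonneg (le_of_lt hx) _)
    · exact mul_nonneg hCw.le (Real.rpow_nonneg (le_of_lt hx) _)
  set Cτ : ℝ := CB * Ck / Iv with hCτ
  have hCτ0 : 0 < Cτ := by rw [hCτ]; positivity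
  set CvS : ℝ := ∑ j ∈ Finset.range (Jd + 1), Cv j with hCvS
  have hvS : ∀ j, j ≤ Jd → Cv j ≤ CvS := by
    intro j hj
    rw [hCvS]
    exact Finset.single_le_sum (f := Cv) (fun i _ => (hCv i).le) (Finset.mem_range.2 (by omega))
  have hCvS0 : 0 < CvS := lt_of_lt_of_le (hCv 0) (hvS 0 (by omega))
  set C3 : ℝ := CA * (CB * (2 + Cτ * J)) + Cτ * CvS with hC3
  have hC30 : 0 < C3 := by rw [hC3]; positivity
  refine ⟨Cτ + 6 * C3, by positivity, ?_⟩
  intro L v hL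
  obtain ⟨hBc, -, hB1, hB2, hB3, hB4⟩ := hB L hL
  set τ := v.2.2 with hτd
  set c := v.1 with hcd
  have hBpos : ∀ x, 0 < x → 0 < Bn n L x := fun x hx => (hB1 x hx).1
  have hBlow : ∀ x, 0 < x → x ^ (-(1 / 20) : ℝ) ≤ CB * Bn n L x := fun x hx => (hB1 x hx).2.2.2
  have hB40 : ∀ x, 0 < x → x ≤ 1 → Bn n L x = x ^ (-(1 / 20) : ℝ) := fun x hx hx1 => (hB4 x hx hx1).1
  have hcg : ContinuousOn (fun x => ‖gC μ 0 v x‖) (Ioi 0) :=
    ContinuousOn.norm fun x hx => (((hGDC n 0 μ hμ1).1 v x hx).continuousAt.continuousWithinAt)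
  have hcv : ContinuousOn (fun x => |vf μ 0 x|) (Ioi 0) :=
    ContinuousOn.abs fun x hx => ((bVD n 0 μ hμ1).1 x hx).2.continuousAt.continuousWithinAt
  obtain ⟨Cf1, hf1⟩ := (hGDC n 0 μ hμ1).2.1 v (3 / 5) (by norm_num)
  obtain ⟨Cf2, hf2⟩ := (hGDC n 0 μ hμ1).2.1 v 2 (by norm_num)
  have hintg := (GVC_dom hBc hBpos hB2 hB40 hcg (fun x => norm_nonneg _) hf1 hf2).1
  obtain ⟨hintv, hleJ⟩ := GVC_dom hBc hBpos hB2 hB40 hcv (fun x => abs_nonneg _) (hvb 0) hwb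
  set M := MC μ L v with hM
  have hMdef : M = ∫ x in Ioi (0 : ℝ), Bn n L x * ‖gC μ 0 v x‖ := rfl
  have hM0 : 0 ≤ M := by
    rw [hMdef]
    apply setIntegral_nonneg measurableSet_Ioi
    intro x hx
    exact mul_nonneg (hBpos x hx).le (norm_nonneg _)
  have hgre : ∀ x, |fV μ 0 c x + τ * vf μ 0 x| ≤ ‖gC μ 0 v x‖ := fun x => GVC_re μ 0 v x
  have hgim : ∀ x, |fP μ 0 v.2.1 x| ≤ ‖gC μ 0 v x‖ := fun x => GVC_im μ 0 v x
  -- the bound for `τ`
  have hτ : |τ| ≤ Cτ * M := by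
    have e1 : ∫ x in Ioi (0 : ℝ), (fV μ 0 c x + τ * vf μ 0 x) * kf μ 0 x = τ * Iv := by
      have e2 : ∀ x, (fV μ 0 c x + τ * vf μ 0 x) * kf μ 0 x = fV μ 0 c x * kf μ 0 x + τ * (vf μ 0 x * kf μ 0 x) := by
        intro x
        ring
      simp only [e2]
      rw [integral_add (hOR1 c).1 (hOR2.const_mul τ), (hOR1 c).2, integral_const_mul, zero_add]
    have e3 : |∫ x in Ioi (0 : ℝ), (fV μ 0 c x + τ * vf μ 0 x) * kf μ 0 x| ≤ CB * Ck * M := by
      rw [← Real.norm_eq_abs]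
      refine le_trans (norm_integral_le_of_norm_le (hintg.const_mul (CB * Ck)) ?_) (le_of_eq ?_)
      · refine (ae_restrict_iff' measurableSet_Ioi).2 (Filter.Eventually.of_forall (fun x hx => ?_))
        have hx0 : 0 < x := hx
        rw [Real.norm_eq_abs, abs_mul]
        have h3 : |kf μ 0 x| ≤ Ck * (CB * Bn n L x) := by
          refine le_trans (hkb x hx0) ?_
          exact mul_le_mul_of_nonneg_left (hBlow x hx0) hCk.le
        calc |fV μ 0 c x + τ * vf μ 0 x| * |kf μ 0 x| ≤ ‖gC μ 0 v x‖ * (Ck * (CB * Bn n L x)) :=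
              mul_le_mul (hgre x) h3 (abs_nonneg _) (norm_nonneg _)
          _ = CB * Ck * (Bn n L x * ‖gC μ 0 v x‖) := by ring
      · rw [integral_const_mul, hMdef]
    rw [e1, abs_mul, abs_of_pos hOR3] at e3
    rw [hCτ]
    rw [div_mul_eq_mul_div, le_div_iff₀ hOR3]
    exact e3
  -- the bounds for the weighted norms of `f` and `f^+`
  have hf : (∫ y in Ioi (0 : ℝ), y ^ (-(1 / 20) : ℝ) * |fV μ 0 c y|) ≤ CB * (1 + Cτ * J) * M := by
    have s1 : (∫ y in Ioi (0 : ℝ), y ^ (-(1 / 20) : ℝ) * |fV μ 0 c y|) ≤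
        ∫ y in Ioi (0 : ℝ), CB * (Bn n L y * ‖gC μ 0 v y‖ + |τ| * (Bn n L y * |vf μ 0 y|)) := by
      apply integral_mono_of_nonneg
      · refine (ae_restrict_iff' measurableSet_Ioi).2 (Filter.Eventually.of_forall (fun x hx => ?_))
        exact mul_nonneg (Real.rpow_nonneg (le_of_lt hx) _) (abs_nonneg _)
      · exact (hintg.add (hintv.const_mul |τ|)).const_mul CB
      · refine (ae_restrict_iff' measurableSet_Ioi).2 (Filter.Eventually.of_forall (fun x hx => ?_))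
        have hx0 : 0 < x := hx
        have h1 := hBlow x hx0
        have hBp := hBpos x hx0
        have h2 : |fV μ 0 c x| ≤ ‖gC μ 0 v x‖ + |τ| * |vf μ 0 x| := by
          have e : fV μ 0 c x = (fV μ 0 c x + τ * vf μ 0 x) - τ * vf μ 0 x := by ring
          rw [e, ← abs_mul]
          refine (abs_sub _ _).trans ?_
          have := hgre x
          linarith
        calc x ^ (-(1 / 20) : ℝ) * |fV μ 0 c x| ≤ (CB * Bn n L x) * (‖gC μ 0 v x‖ + |τ| * |vf μ 0 x|) :=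
              mul_le_mul h1 h2 (abs_nonneg _) (by positivity)
          _ = CB * (Bn n L x * ‖gC μ 0 v x‖ + |τ| * (Bn n L x * |vf μ 0 x|)) := by ring
    refine le_trans s1 ?_
    rw [integral_const_mul, integral_add hintg (hintv.const_mul |τ|), integral_const_mul, ← hMdef]
    have s2 : |τ| * ∫ x in Ioi (0 : ℝ), Bn n L x * |vf μ 0 x| ≤ Cτ * M * J := by
      apply mul_le_mul hτ hleJ
      · apply setIntegral_nonneg measurableSet_Ioi
        intro x hx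
        exact mul_nonneg (hBpos x hx).le (abs_nonneg _)
      · positivity
    have s3 : CB * (M + |τ| * ∫ x in Ioi (0 : ℝ), Bn n L x * |vf μ 0 x|) ≤ CB * (M + Cτ * M * J) :=
      mul_le_mul_of_nonneg_left (by linarith) hCB.le
    refine s3.trans (le_of_eq (by ring))
  have hfP : (∫ y in Ioi (0 : ℝ), y ^ (-(1 / 20) : ℝ) * |fP μ 0 v.2.1 y|) ≤ CB * M := by
    have s1 : (∫ y in Ioi (0 : ℝ), y ^ (-(1 / 20) : ℝ) * |fP μ 0 v.2.1 y|) ≤
        ∫ y in Ioi (0 : ℝ), CB * (Bn n L y * ‖gC μ 0 v y‖) := by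
      apply integral_mono_of_nonneg
      · refine (ae_restrict_iff' measurableSet_Ioi).2 (Filter.Eventually.of_forall (fun x hx => ?_))
        exact mul_nonneg (Real.rpow_nonneg (le_of_lt hx) _) (abs_nonneg _)
      · exact hintg.const_mul CB
      · refine (ae_restrict_iff' measurableSet_Ioi).2 (Filter.Eventually.of_forall (fun x hx => ?_))
        have hx0 : 0 < x := hx
        have h1 := hBlow x hx0
        have hBp := hBpos x hx0
        calc x ^ (-(1 / 20) : ℝ) * |fP μ 0 v.2.1 x| ≤ (CB * Bn n L x) * ‖gC μ 0 v x‖ :=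
              mul_le_mul h1 (hgim x) (abs_nonneg _) (by positivity)
          _ = CB * (Bn n L x * ‖gC μ 0 v x‖) := by ring
    refine le_trans s1 ?_
    rw [integral_const_mul, ← hMdef]
  have hgj : ∀ j : ℕ, j ≤ Jd → ∀ x : ℝ, 0 < x →
      ‖gC μ j v x‖ ≤ C3 * (x ^ (-(1 / 20) : ℝ) + x ^ (-(3 / 5) : ℝ)) * M := by
    intro j hj x hx
    have p1 : 0 ≤ x ^ (-(1 / 20) : ℝ) := Real.rpow_nonneg hx.le _
    have p2 : 0 ≤ x ^ (-(3 / 5) : ℝ) := Real.rpow_nonneg hx.le _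
    have t1 : |fV μ j c x| ≤ CA * (CB * (1 + Cτ * J)) * x ^ (-(1 / 20) : ℝ) * M := by
      calc |fV μ j c x| ≤ CA * x ^ (-(1 / 20) : ℝ) * ∫ y in Ioi (0 : ℝ), y ^ (-(1 / 20) : ℝ) * |fV μ 0 c y| :=
            (hLA j hj c x hx).1
        _ ≤ CA * x ^ (-(1 / 20) : ℝ) * (CB * (1 + Cτ * J) * M) := mul_le_mul_of_nonneg_left hf (by positivity)
        _ = CA * (CB * (1 + Cτ * J)) * x ^ (-(1 / 20) : ℝ) * M := by ring
    have t4 : |fP μ j v.2.1 x| ≤ CA * CB * x ^ (-(1 / 20) : ℝ) * M := by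
      calc |fP μ j v.2.1 x| ≤ CA * x ^ (-(1 / 20) : ℝ) * ∫ y in Ioi (0 : ℝ), y ^ (-(1 / 20) : ℝ) * |fP μ 0 v.2.1 y| :=
            (hLA j hj v.2.1 x hx).2
        _ ≤ CA * x ^ (-(1 / 20) : ℝ) * (CB * M) := mul_le_mul_of_nonneg_left hfP (by positivity)
        _ = CA * CB * x ^ (-(1 / 20) : ℝ) * M := by ring
    have t2 : |τ * vf μ j x| ≤ Cτ * CvS * x ^ (-(3 / 5) : ℝ) * M := by
      rw [abs_mul]
      calc |τ| * |vf μ j x| ≤ (Cτ * M) * (CvS * x ^ (-(3 / 5) : ℝ)) := by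
            apply mul_le_mul hτ _ (abs_nonneg _) (by positivity)
            exact le_trans (hvb j x hx) (mul_le_mul_of_nonneg_right (hvS j hj) p2)
        _ = Cτ * CvS * x ^ (-(3 / 5) : ℝ) * M := by ring
    have t3 := GVC_nm μ j v x
    have q1 : 0 ≤ x ^ (-(1 / 20) : ℝ) * M := mul_nonneg p1 hM0
    have q2 : 0 ≤ x ^ (-(3 / 5) : ℝ) * M := mul_nonneg p2 hM0
    have q3 : 0 ≤ Cτ * CvS := by positivity
    have q4 : 0 ≤ CA * (CB * (2 + Cτ * J)) := by positivity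
    have a1 : CA * (CB * (1 + Cτ * J)) * x ^ (-(1 / 20) : ℝ) * M + CA * CB * x ^ (-(1 / 20) : ℝ) * M ≤
        C3 * (x ^ (-(1 / 20) : ℝ) * M) := by
      have : CA * (CB * (1 + Cτ * J)) * x ^ (-(1 / 20) : ℝ) * M + CA * CB * x ^ (-(1 / 20) : ℝ) * M =
          CA * (CB * (2 + Cτ * J)) * (x ^ (-(1 / 20) : ℝ) * M) := by ring
      rw [this]
      apply mul_le_mul_of_nonneg_right _ q1
      rw [hC3]
      linarith
    have a2 : Cτ * CvS * x ^ (-(3 / 5) : ℝ) * M ≤ C3 * (x ^ (-(3 / 5) : ℝ) * M) := by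
      rw [mul_assoc]
      apply mul_le_mul_of_nonneg_right _ q2
      rw [hC3]
      linarith
    calc ‖gC μ j v x‖ ≤ |fV μ j c x| + |τ * vf μ j x| + |fP μ j v.2.1 x| := t3
      _ ≤ CA * (CB * (1 + Cτ * J)) * x ^ (-(1 / 20) : ℝ) * M + Cτ * CvS * x ^ (-(3 / 5) : ℝ) * M +
          CA * CB * x ^ (-(1 / 20) : ℝ) * M := add_le_add (add_le_add t1 t2) t4
      _ ≤ C3 * (x ^ (-(1 / 20) : ℝ) * M) + C3 * (x ^ (-(3 / 5) : ℝ) * M) := by linarith
      _ = _ := by ring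
  refine ⟨hintg, ?_, ?_, ?_⟩
  · refine le_trans hτ ?_
    apply mul_le_mul_of_nonneg_right _ hM0
    linarith
  · intro j hj x hx
    refine (hgj j hj x hx).trans ?_
    apply mul_le_mul_of_nonneg_right _ hM0
    apply mul_le_mul_of_nonneg_right _ (by positivity)
    linarith
  · intro Y hY hY1
    have hii : IntervalIntegrable (fun x : ℝ => x ^ (-(13 / 20) : ℝ)) volume 0 Y :=
      intervalIntegral.intervalIntegrable_rpow' (by norm_num)
    have hio : IntegrableOn (fun x : ℝ => 2 * C3 * M * x ^ (-(13 / 20) : ℝ)) (Ioc 0 Y) :=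
      ((intervalIntegrable_iff_integrableOn_Ioc_of_le hY.le).1 hii).const_mul _
    have h1 : ∫ x in Ioc 0 Y, Bn n L x * ‖gC μ 0 v x‖ ≤ ∫ x in Ioc 0 Y, 2 * C3 * M * x ^ (-(13 / 20) : ℝ) := by
      refine setIntegral_mono_on (hintg.mono_set Ioc_subset_Ioi_self) hio measurableSet_Ioc fun x hx => ?_
      have hx0 : 0 < x := hx.1
      have hx1 : x ≤ 1 := hx.2.trans hY1
      rw [hB40 x hx0 hx1]
      have e1 : x ^ (-(1 / 20) : ℝ) ≤ x ^ (-(3 / 5) : ℝ) :=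
        Real.rpow_le_rpow_of_exponent_ge hx0 hx1 (by norm_num)
      have e2 : x ^ (-(13 / 20) : ℝ) = x ^ (-(1 / 20) : ℝ) * x ^ (-(3 / 5) : ℝ) := by
        rw [← Real.rpow_add hx0]
        norm_num
      have e3 : 0 ≤ x ^ (-(1 / 20) : ℝ) := by positivity
      calc x ^ (-(1 / 20) : ℝ) * ‖gC μ 0 v x‖ ≤
            x ^ (-(1 / 20) : ℝ) * (C3 * (x ^ (-(1 / 20) : ℝ) + x ^ (-(3 / 5) : ℝ)) * M) :=
            mul_le_mul_of_nonneg_left (hgj 0 (by omega) x hx0) e3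
        _ ≤ x ^ (-(1 / 20) : ℝ) * (C3 * (x ^ (-(3 / 5) : ℝ) + x ^ (-(3 / 5) : ℝ)) * M) := by
            apply mul_le_mul_of_nonneg_left _ e3
            apply mul_le_mul_of_nonneg_right _ hM0
            apply mul_le_mul_of_nonneg_left _ hC30.le
            linarith
        _ = 2 * C3 * M * x ^ (-(13 / 20) : ℝ) := by rw [e2]; ring
    have h2 : ∫ x in Ioc 0 Y, 2 * C3 * M * x ^ (-(13 / 20) : ℝ) = 2 * C3 * M * (Y ^ (7 / 20 : ℝ) / (7 / 20)) := by
      rw [integral_const_mul, ← intervalIntegral.integral_of_le hY.le, integral_rpow (Or.inl (by norm_num))]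
      rw [Real.zero_rpow (by norm_num)]
      norm_num
    rw [h2] at h1
    refine h1.trans ?_
    have hYp : 0 ≤ Y ^ (7 / 20 : ℝ) := by positivity
    have : 2 * C3 * M * (Y ^ (7 / 20 : ℝ) / (7 / 20)) = (40 / 7 * C3) * Y ^ (7 / 20 : ℝ) * M := by ring
    rw [this]
    apply mul_le_mul_of_nonneg_right _ hM0
    apply mul_le_mul_of_nonneg_right _ hYp
    linarith

end Pool.Agent.TW
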