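import Pool.Agent.helper14.TW.SpecK
import Pool.Agent.helper14.ZT.INC

/-!
# Project TW, row K2: decay of `g` and `D g`
-/

set_option autoImplicit false

open Complex MeasureTheory Set

namespace Pool.Agent.TW

open Pool.Agent.BA (Par GG kf vf fV)
open Pool.Agent.ZT (VV gC Bn MC fP GDC_stmt BNW_stmt INC_cv)

theorem K2_log (n J : ℕ) (hJ : 1 ≤ J) : ∃ C : ℝ, 0 < C ∧ ∀ Y : ℝ, 1 ≤ Y →
    (1 + Real.log (2 * Y)) ^ (n + 2) ≤ C * Y ^ (1 / (J : ℝ)) := by
  have hJr : (1 : ℝ) ≤ J := by exact_mod_cast hJ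
  have hJ0 : (0 : ℝ) < J := by linarith
  set ε : ℝ := 1 / (J * (n + 2)) with hε
  have hε0 : 0 < ε := by positivity
  refine ⟨2 * (1 + 1 / ε) ^ (n + 2), by positivity, fun Y hY => ?_⟩
  have h2Y : (1 : ℝ) ≤ 2 * Y := by linarith
  have h1 : Real.log (2 * Y) ≤ (2 * Y) ^ ε / ε := Real.log_le_rpow_div (by linarith) hε0
  have h2 : 1 ≤ (2 * Y) ^ ε := Real.one_le_rpow h2Y hε0.le
  have h3 : 1 + Real.log (2 * Y) ≤ (1 + 1 / ε) * (2 * Y) ^ ε := by
    calc 1 + Real.log (2 * Y) ≤ (2 * Y) ^ ε + (2 * Y) ^ ε / ε := add_le_add h2 h1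
      _ = _ := by ring
  have h4 : 0 ≤ 1 + Real.log (2 * Y) := by
    have := Real.log_nonneg h2Y
    linarith
  have h5 : 1 / (J : ℝ) ≤ 1 := by
    rw [div_le_one hJ0]
    exact hJr
  calc (1 + Real.log (2 * Y)) ^ (n + 2) ≤ ((1 + 1 / ε) * (2 * Y) ^ ε) ^ (n + 2) := pow_le_pow_left₀ h4 h3 _
    _ = (1 + 1 / ε) ^ (n + 2) * (2 * Y) ^ (1 / (J : ℝ)) := by
        rw [mul_pow, ← Real.rpow_natCast ((2 * Y) ^ ε), ← Real.rpow_mul (by linarith)]
        congr 2
        rw [hε]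
        push_cast
        field_simp
    _ = (1 + 1 / ε) ^ (n + 2) * (2 ^ (1 / (J : ℝ)) * Y ^ (1 / (J : ℝ))) := by
        rw [Real.mul_rpow (by norm_num) (by linarith)]
    _ ≤ (1 + 1 / ε) ^ (n + 2) * (2 * Y ^ (1 / (J : ℝ))) := by
        apply mul_le_mul_of_nonneg_left _ (by positivity)
        apply mul_le_mul_of_nonneg_right _ (by positivity)
        calc (2 : ℝ) ^ (1 / (J : ℝ)) ≤ 2 ^ (1 : ℝ) := Real.rpow_le_rpow_of_exponent_le (by norm_num) h5
          _ = 2 := Real.rpow_one 2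
    _ = _ := by ring

/-- `sup ≤` mean plus variation -/
theorem K2_sup (F F' : ℝ → ℂ) (a ℓ : ℝ) (hℓ : 0 < ℓ) (hd : ∀ t, HasDerivAt F (F' t) t) (hc : Continuous F') :
    ‖F a‖ ≤ (∫ t in a..(a + ℓ), ‖F t‖) / ℓ + ∫ t in a..(a + ℓ), ‖F' t‖ := by
  have hFc : Continuous F := continuous_iff_continuousAt.mpr fun t => (hd t).continuousAt
  have hle : a ≤ a + ℓ := by linarith
  set V := ∫ t in a..(a + ℓ), ‖F' t‖ with hV
  have h1 : ∀ t ∈ Icc a (a + ℓ), ‖F a‖ - V ≤ ‖F t‖ := by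
    intro t ht
    have e1 : ∫ s in a..t, F' s = F t - F a :=
      intervalIntegral.integral_eq_sub_of_hasDerivAt (fun x _ => hd x) (hc.intervalIntegrable _ _)
    have e2 : ‖∫ s in a..t, F' s‖ ≤ ∫ s in a..t, ‖F' s‖ := intervalIntegral.norm_integral_le_integral_norm ht.1
    have e3 : (∫ s in a..t, ‖F' s‖) ≤ V := by
      rw [hV, ← intervalIntegral.integral_add_adjacent_intervals (hc.norm.intervalIntegrable a t)
        (hc.norm.intervalIntegrable t (a + ℓ))]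
      have : 0 ≤ ∫ s in t..(a + ℓ), ‖F' s‖ := intervalIntegral.integral_nonneg ht.2 fun _ _ => norm_nonneg _
      linarith
    have e4 : ‖F a‖ ≤ ‖F t‖ + ‖F t - F a‖ := by
      have : F a = F t - (F t - F a) := by ring
      nth_rewrite 1 [this]
      exact norm_sub_le _ _
    rw [e1] at e2
    linarith
  have h2 : ∫ _t in a..(a + ℓ), (‖F a‖ - V) ≤ ∫ t in a..(a + ℓ), ‖F t‖ :=
    intervalIntegral.integral_mono_on hle intervalIntegrable_const (hFc.norm.intervalIntegrable _ _) h1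
  rw [intervalIntegral.integral_const, smul_eq_mul, add_sub_cancel_left] at h2
  have h3 : ‖F a‖ - V ≤ (∫ t in a..(a + ℓ), ‖F t‖) / ℓ := by
    rw [le_div_iff₀ hℓ]
    linarith
  linarith

theorem K2 (hK1 : K1_stmt) (hL1J : L1J_stmt) (hGDC : GDC_stmt) (hBNW : BNW_stmt) : K2_stmt := by
  intro J n μ hJ7 hJn hμ
  have hμ1 : Par 1 μ := ⟨by omega, hμ⟩
  obtain ⟨C1, hC1, h1⟩ := hK1 J n μ hJ7 hJn hμ
  obtain ⟨CB, hCB, hB⟩ := hBNW n
  obtain ⟨CL, hCL, hL1⟩ := hL1J J (by omega)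
  obtain ⟨C0, hC0, hlog⟩ := K2_log n J (by omega)
  have hJr : (7 : ℝ) ≤ J := by exact_mod_cast hJ7
  have hJ0 : (0 : ℝ) < J := by linarith
  refine ⟨2 * CL * (3 * C0 + 2 * C1), by positivity, ?_⟩
  intro L v hL j hj y hY1
  have hY : 0 < y := by linarith
  obtain ⟨hintg, -, h1b, -⟩ := h1 L v hL
  obtain ⟨-, -, hB1, hB2, hB3, hB4⟩ := hB L hL
  set M := MC μ L v with hM
  have hMdef : M = ∫ x in Ioi (0 : ℝ), Bn n L x * ‖gC μ 0 v x‖ := rfl
  have hM0 : 0 ≤ M := by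
    rw [hMdef]
    apply setIntegral_nonneg measurableSet_Ioi
    intro x hx
    exact mul_nonneg (hB1 x hx).1.le (norm_nonneg _)
  have hcn : ∀ i : ℕ, ContinuousOn (fun y => ‖gC μ i v y‖) (Ioi 0) := fun i =>
    ContinuousOn.norm fun x hx => ((hGDC n i μ hμ1).1 v x hx).continuousAt.continuousWithinAt
  have hle : y ≤ 2 * y := by linarith
  have hsub : uIcc y (2 * y) ⊆ Ioi 0 := by
    rw [uIcc_of_le hle]
    exact fun z hz => lt_of_lt_of_le hY hz.1
  have hl2 : 0 < Real.log 2 := Real.log_pos (by norm_num)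
  set ℓ : ℝ := Real.log 2 * y ^ (-(1 / (J : ℝ))) with hℓ
  have hyp : 0 < y ^ (-(1 / (J : ℝ))) := Real.rpow_pos_of_pos hY _
  have hyp1 : y ^ (-(1 / (J : ℝ))) ≤ 1 := Real.rpow_le_one_of_one_le_of_nonpos hY1 (by
    rw [neg_nonpos]
    positivity)
  have hℓ0 : 0 < ℓ := by positivity
  have hℓ1 : ℓ ≤ Real.log 2 := by
    rw [hℓ]
    exact mul_le_of_le_one_right hl2.le hyp1
  set A := Real.log y with hA
  set F : ℕ → ℝ → ℂ := fun i t => gC μ i v (Real.exp t) with hFd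
  have hF : ∀ i t, HasDerivAt (F i) (F (i + 1) t) t := by
    intro i t
    have h3 := HasDerivAt.scomp t ((hGDC n i μ hμ1).1 v (Real.exp t) (Real.exp_pos t)) (Real.hasDerivAt_exp t)
    refine h3.congr_deriv ?_
    rw [Complex.real_smul]
    have : ((Real.exp t : ℝ) : ℂ) ≠ 0 := by exact_mod_cast (Real.exp_pos t).ne'
    rw [mul_div_cancel₀ _ this]
  have hFcc : ∀ i, Continuous (F i) := fun i => continuous_iff_continuousAt.mpr fun t => (hF i t).continuousAt
  have hFc : ∀ i, Continuous fun t => ‖F i t‖ := fun i => (hFcc i).norm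
  have hs : ∀ i : ℕ, i ≤ 2 → ∫ t in A..(A + ℓ), ‖F i t‖ ≤
      CL * ((∫ t in A..(A + ℓ), ‖F 0 t‖) / ℓ ^ i + ℓ ^ (J - i) * ∫ t in A..(A + ℓ), ‖F J t‖) := fun i hi =>
    hL1 F A ℓ hℓ0 (fun i _ v _ => hF i v) (hFcc J).continuousOn i hi
  have hAB : A ≤ A + Real.log 2 := by linarith
  have hAℓ : A ≤ A + ℓ := by linarith
  have hexp : ∀ t ∈ Icc A (A + Real.log 2), y ≤ Real.exp t ∧ Real.exp t ≤ 2 * y := by
    intro t ht
    constructor
    · rw [← Real.exp_log hY]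
      exact Real.exp_le_exp.mpr ht.1
    · have : Real.exp t ≤ Real.exp (A + Real.log 2) := Real.exp_le_exp.mpr ht.2
      rw [Real.exp_add, hA, Real.exp_log hY, Real.exp_log (by norm_num)] at this
      linarith
  have hJint : ∫ t in A..(A + ℓ), ‖F J t‖ ≤ ℓ * (2 * C1 * M) := by
    have e1 : ∫ t in A..(A + ℓ), ‖F J t‖ ≤ ∫ _t in A..(A + ℓ), 2 * C1 * M := by
      refine intervalIntegral.integral_mono_on hAℓ ((hFc J).intervalIntegrable _ _)
        intervalIntegrable_const fun t ht => ?_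
      have hy := hexp t ⟨ht.1, ht.2.trans (by linarith)⟩
      have he1 : 1 ≤ Real.exp t := hY1.trans hy.1
      refine (h1b J le_rfl (Real.exp t) (Real.exp_pos t)).trans ?_
      have a1 : (Real.exp t) ^ (-(1 / 20) : ℝ) ≤ 1 := Real.rpow_le_one_of_one_le_of_nonpos he1 (by norm_num)
      have a2 : (Real.exp t) ^ (-(3 / 5) : ℝ) ≤ 1 := Real.rpow_le_one_of_one_le_of_nonpos he1 (by norm_num)
      apply mul_le_mul_of_nonneg_right _ hM0
      nlinarith
    rw [intervalIntegral.integral_const, smul_eq_mul, add_sub_cancel_left] at e1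
    exact e1
  -- the bound for the function
  have h0 : ∫ t in A..(A + ℓ), ‖F 0 t‖ ≤ C0 * y ^ (1 / (J : ℝ) - 1) * M := by
    have hYB : 0 < Bn n L (2 * y) := (hB1 _ (by linarith)).1
    have e0 : ∫ t in A..(A + ℓ), ‖F 0 t‖ ≤ ∫ t in A..(A + Real.log 2), ‖F 0 t‖ := by
      rw [← intervalIntegral.integral_add_adjacent_intervals ((hFc 0).intervalIntegrable A (A + ℓ))
        ((hFc 0).intervalIntegrable (A + ℓ) (A + Real.log 2))]
      have : 0 ≤ ∫ t in (A + ℓ)..(A + Real.log 2), ‖F 0 t‖ :=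
        intervalIntegral.integral_nonneg (by linarith) fun _ _ => norm_nonneg _
      linarith
    have e1 : ∫ t in A..(A + Real.log 2), ‖F 0 t‖ ≤
        ∫ t in A..(A + Real.log 2), (1 / y) * (‖gC μ 0 v (Real.exp t)‖ * Real.exp t) := by
      refine intervalIntegral.integral_mono_on hAB ((hFc 0).intervalIntegrable _ _)
        (((hFc 0).mul Real.continuous_exp).const_mul (1 / y) |>.intervalIntegrable _ _) fun t ht => ?_
      have hy := hexp t ht
      have hn : 0 ≤ ‖gC μ 0 v (Real.exp t)‖ := norm_nonneg _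
      show ‖gC μ 0 v (Real.exp t)‖ ≤ _
      rw [one_div, inv_mul_eq_div, le_div_iff₀ hY]
      exact mul_le_mul_of_nonneg_left hy.1 hn
    rw [intervalIntegral.integral_const_mul, ← INC_cv (fun y => ‖gC μ 0 v y‖) (hcn 0) y hY] at e1
    have e2 : ∫ z in y..(2 * y), ‖gC μ 0 v z‖ ≤ (Bn n L (2 * y))⁻¹ * M := by
      have e3 : ∫ z in y..(2 * y), ‖gC μ 0 v z‖ ≤ ∫ z in y..(2 * y), (Bn n L (2 * y))⁻¹ * (Bn n L z * ‖gC μ 0 v z‖) := by
        refine intervalIntegral.integral_mono_on hle ((hcn 0).mono hsub).intervalIntegrable ?_ fun z hz => ?_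
        · apply IntervalIntegrable.const_mul
          rw [intervalIntegrable_iff_integrableOn_Ioc_of_le hle]
          exact hintg.mono_set fun z hz => lt_trans hY hz.1
        · have hy0 : 0 < z := lt_of_lt_of_le hY hz.1
          have := hB3 z (2 * y) hy0 hz.2
          rw [← mul_assoc]
          refine le_mul_of_one_le_left (norm_nonneg _) ?_
          rw [inv_mul_eq_div, le_div_iff₀ hYB, one_mul]
          exact this
      rw [intervalIntegral.integral_const_mul] at e3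
      refine e3.trans ?_
      apply mul_le_mul_of_nonneg_left _ (by positivity)
      rw [intervalIntegral.integral_of_le hle, hMdef]
      apply setIntegral_mono_set hintg
      · refine (ae_restrict_iff' measurableSet_Ioi).2 (Filter.Eventually.of_forall fun x hx => ?_)
        exact mul_nonneg (hB1 x hx).1.le (norm_nonneg _)
      · exact HasSubset.Subset.eventuallyLE fun z hz => lt_trans hY hz.1
    have e4 : (Bn n L (2 * y))⁻¹ ≤ C0 * y ^ (1 / (J : ℝ)) := by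
      have h2Y : ¬ (2 * y ≤ 1) := by linarith
      unfold Bn
      rw [if_neg h2Y, inv_inv]
      have hlg : 0 ≤ Real.log (2 * y) := Real.log_nonneg (by linarith)
      have : 1 + Real.log (2 * y) / L ≤ 1 + Real.log (2 * y) := by
        have := div_le_self hlg hL
        linarith
      exact (pow_le_pow_left₀ (by positivity) this _).trans (hlog y hY1)
    calc ∫ t in A..(A + ℓ), ‖F 0 t‖ ≤ (1 / y) * ∫ z in y..(2 * y), ‖gC μ 0 v z‖ := e0.trans e1
      _ ≤ (1 / y) * ((C0 * y ^ (1 / (J : ℝ))) * M) := by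
          apply mul_le_mul_of_nonneg_left _ (by positivity)
          exact e2.trans (mul_le_mul_of_nonneg_right e4 hM0)
      _ = _ := by
          rw [Real.rpow_sub hY, Real.rpow_one]
          ring
  -- the value at the left end
  have hsup := K2_sup (F j) (F (j + 1)) A ℓ hℓ0 (hF j) (hFcc (j + 1))
  have hFA : F j A = gC μ j v y := by
    rw [hFd]
    simp only
    rw [hA, Real.exp_log hY]
  rw [hFA] at hsup
  have hj1 := hs j (by omega)
  have hj2 := hs (j + 1) (by omega)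
  set A0 := ∫ t in A..(A + ℓ), ‖F 0 t‖ with hA0
  set AJ := ∫ t in A..(A + ℓ), ‖F J t‖ with hAJ
  have hA0n : 0 ≤ A0 := intervalIntegral.integral_nonneg hAℓ fun _ _ => norm_nonneg _
  have hAJn : 0 ≤ AJ := intervalIntegral.integral_nonneg hAℓ fun _ _ => norm_nonneg _
  have e5 : (CL * (A0 / ℓ ^ j + ℓ ^ (J - j) * AJ)) / ℓ = CL * (A0 / ℓ ^ (j + 1) + ℓ ^ (J - (j + 1)) * AJ) := by
    have : ℓ ^ (J - j) = ℓ ^ (J - (j + 1)) * ℓ := by
      rw [← pow_succ]
      congr 1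
      omega
    rw [this]
    field_simp
    ring
  have h6 : ‖gC μ j v y‖ ≤ 2 * CL * (A0 / ℓ ^ (j + 1) + ℓ ^ (J - (j + 1)) * AJ) := by
    have : (∫ t in A..(A + ℓ), ‖F j t‖) / ℓ ≤ (CL * (A0 / ℓ ^ j + ℓ ^ (J - j) * AJ)) / ℓ :=
      div_le_div_of_nonneg_right hj1 hℓ0.le
    rw [e5] at this
    linarith
  have hl2'' : 2 / 3 ≤ Real.log 2 := by
    have := Real.log_two_gt_d9
    linarith
  have hl2' : Real.log 2 ≤ 1 := by
    have := Real.log_two_lt_d9
    linarith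
  have hjr : (j : ℝ) ≤ 1 := by exact_mod_cast hj
  have hinv : ℓ⁻¹ ≤ 3 / 2 * y ^ (1 / (J : ℝ)) := by
    rw [hℓ, mul_inv, Real.rpow_neg hY.le, inv_inv]
    apply mul_le_mul_of_nonneg_right _ (by positivity)
    rw [inv_le_comm₀ hl2 (by norm_num)]
    linarith
  have hp1 : (ℓ ^ (j + 1))⁻¹ ≤ 3 * y ^ (2 / (J : ℝ)) := by
    rw [← inv_pow]
    calc ℓ⁻¹ ^ (j + 1) ≤ (3 / 2 * y ^ (1 / (J : ℝ))) ^ (j + 1) := pow_le_pow_left₀ (by positivity) hinv _
      _ ≤ (3 / 2 * y ^ (1 / (J : ℝ))) ^ 2 := by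
          apply pow_le_pow_right₀ _ (by omega)
          have : 1 ≤ y ^ (1 / (J : ℝ)) := Real.one_le_rpow hY1 (by positivity)
          linarith
      _ = 9 / 4 * y ^ (2 / (J : ℝ)) := by
          rw [mul_pow, ← Real.rpow_natCast (y ^ (1 / (J : ℝ))), ← Real.rpow_mul hY.le]
          congr 2
          · norm_num
          · push_cast
            ring
      _ ≤ 3 * y ^ (2 / (J : ℝ)) := by
          apply mul_le_mul_of_nonneg_right _ (by positivity)
          norm_num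
  have hp2 : ℓ ^ (J - (j + 1)) * ℓ ≤ y ^ (-1 + 1 / (J : ℝ)) := by
    have hℓy : ℓ ≤ y ^ (-(1 / (J : ℝ))) := by
      rw [hℓ]
      exact mul_le_of_le_one_left hyp.le hl2'
    have e1 : ℓ ^ (J - (j + 1)) * ℓ = ℓ ^ (J - j) := by
      rw [← pow_succ]
      congr 1
      omega
    rw [e1]
    calc ℓ ^ (J - j) ≤ (y ^ (-(1 / (J : ℝ)))) ^ (J - j) := pow_le_pow_left₀ hℓ0.le hℓy _
      _ = y ^ (-(1 / (J : ℝ)) * ((J : ℝ) - j)) := by
          rw [← Real.rpow_natCast (y ^ (-(1 / (J : ℝ)))), ← Real.rpow_mul hY.le, Nat.cast_sub (by omega)]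
      _ ≤ y ^ (-1 + 1 / (J : ℝ)) := by
          apply Real.rpow_le_rpow_of_exponent_le hY1
          have : -(1 / (J : ℝ)) * ((J : ℝ) - j) = -1 + j * (1 / (J : ℝ)) := by
            field_simp
            ring
          rw [this]
          have h1J : 0 ≤ 1 / (J : ℝ) := by positivity
          nlinarith
  have hq1 : A0 / ℓ ^ (j + 1) ≤ 3 * C0 * y ^ (-1 + 3 / (J : ℝ)) * M := by
    calc A0 / ℓ ^ (j + 1) = (ℓ ^ (j + 1))⁻¹ * A0 := by
          rw [div_eq_mul_inv, mul_comm]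
      _ ≤ (3 * y ^ (2 / (J : ℝ))) * (C0 * y ^ (1 / (J : ℝ) - 1) * M) :=
          mul_le_mul hp1 h0 hA0n (by positivity)
      _ = 3 * C0 * (y ^ (2 / (J : ℝ)) * y ^ (1 / (J : ℝ) - 1)) * M := by ring
      _ = 3 * C0 * y ^ (-1 + 3 / (J : ℝ)) * M := by
          rw [← Real.rpow_add hY]
          congr 3
          ring
  have hq2 : ℓ ^ (J - (j + 1)) * AJ ≤ 2 * C1 * y ^ (-1 + 3 / (J : ℝ)) * M := by
    calc ℓ ^ (J - (j + 1)) * AJ ≤ ℓ ^ (J - (j + 1)) * (ℓ * (2 * C1 * M)) :=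
          mul_le_mul_of_nonneg_left hJint (by positivity)
      _ = (ℓ ^ (J - (j + 1)) * ℓ) * (2 * C1 * M) := by ring
      _ ≤ y ^ (-1 + 1 / (J : ℝ)) * (2 * C1 * M) := mul_le_mul_of_nonneg_right hp2 (by positivity)
      _ ≤ y ^ (-1 + 3 / (J : ℝ)) * (2 * C1 * M) := by
          apply mul_le_mul_of_nonneg_right _ (by positivity)
          apply Real.rpow_le_rpow_of_exponent_le hY1
          have : 1 / (J : ℝ) ≤ 3 / (J : ℝ) := by
            apply div_le_div_of_nonneg_right (by norm_num) hJ0.le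
          linarith
      _ = _ := by ring
  calc ‖gC μ j v y‖ ≤ 2 * CL * (A0 / ℓ ^ (j + 1) + ℓ ^ (J - (j + 1)) * AJ) := h6
    _ ≤ 2 * CL * (3 * C0 * y ^ (-1 + 3 / (J : ℝ)) * M + 2 * C1 * y ^ (-1 + 3 / (J : ℝ)) * M) := by
        apply mul_le_mul_of_nonneg_left _ (by positivity)
        exact add_le_add hq1 hq2
    _ = _ := by ring

end Pool.Agent.TW
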