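import Pool.Agent.helper14.TW.SpecK

/-!
# Project TW, row L1J: interpolation in `L¹`, order `J`
-/

set_option autoImplicit false

open Complex MeasureTheory Set

namespace Pool.Agent.TW

/-- the relation of L1A between the numbers `A j` -/
def L1J_P (J : ℕ) (A : ℕ → ℝ) : Prop := (∀ i, 0 ≤ A i) ∧ ∀ j : ℕ, 1 ≤ j → j < J → ∀ k : ℕ, 1 ≤ k →
  A j ≤ 9 * k * A (j - 1) + A (j + 1) / k

theorem L1J_step (J j : ℕ) (hj : 1 ≤ j) (hj6 : j < J) : ∀ m : ℕ, 1 ≤ m → ∃ K : ℝ, 0 ≤ K ∧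
    ∀ A, L1J_P J A → A j ≤ K * A 0 + A (j + 1) / m := by
  induction j, hj using Nat.le_induction with
  | base =>
    intro m hm
    exact ⟨9 * m, by positivity, fun A hA => hA.2 1 le_rfl hj6 m hm⟩
  | succ j hj ih =>
    intro m hm
    obtain ⟨K, hK, h⟩ := ih (by omega) (18 * (2 * m)) (by omega)
    have hm' : (0 : ℝ) < m := by exact_mod_cast hm
    refine ⟨36 * m * K, by positivity, fun A hA => ?_⟩
    have h1 := h A hA
    have h2 := hA.2 (j + 1) (by omega) hj6 (2 * m) (by omega)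
    rw [Nat.add_sub_cancel] at h2
    push_cast at h1 h2
    have h3 : 9 * (2 * (m : ℝ)) * A j ≤
        9 * (2 * (m : ℝ)) * (K * A 0 + A (j + 1) / (18 * (2 * m))) := by gcongr
    have h4 : 9 * (2 * (m : ℝ)) * (K * A 0 + A (j + 1) / (18 * (2 * m))) =
        18 * m * K * A 0 + A (j + 1) / 2 := by
      field_simp
      ring
    have h5 : A (j + 1 + 1) / (2 * (m : ℝ)) = A (j + 1 + 1) / m / 2 := by
      field_simp
    rw [h4] at h3
    rw [h5] at h2
    linarith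

/-- downward induction from `J` -/
theorem L1J_down (J : ℕ) : ∀ d : ℕ, d < J → ∃ C : ℝ, 0 ≤ C ∧ ∀ A, L1J_P J A → A (J - d) ≤ C * A 0 + A J := by
  intro d
  induction d with
  | zero =>
    intro _
    exact ⟨0, le_rfl, fun A _ => by simp⟩
  | succ d ih =>
    intro hd
    obtain ⟨C, hC, h⟩ := ih (by omega)
    obtain ⟨K, hK, h'⟩ := L1J_step J (J - (d + 1)) (by omega) (by omega) 1 le_rfl
    refine ⟨C + K, by positivity, fun A hA => ?_⟩
    have h1 := h A hA
    have h2 := h' A hA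
    rw [show J - (d + 1) + 1 = J - d by omega] at h2
    norm_num at h2
    linarith

theorem L1J_C (J : ℕ) (hJ : 3 ≤ J) : ∃ C : ℝ, 0 < C ∧ ∀ A, L1J_P J A → ∀ j : ℕ, j ≤ 2 → A j ≤ C * (A 0 + A J) := by
  obtain ⟨C1, hC1, h1⟩ := L1J_down J (J - 1) (by omega)
  obtain ⟨C2, hC2, h2⟩ := L1J_down J (J - 2) (by omega)
  refine ⟨C1 + C2 + 1, by positivity, fun A hA j hj => ?_⟩
  have g1 := h1 A hA
  have g2 := h2 A hA
  rw [show J - (J - 1) = 1 by omega] at g1
  rw [show J - (J - 2) = 2 by omega] at g2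
  have a0 := hA.1 0
  have aJ := hA.1 J
  have t1 : 0 ≤ C1 * A 0 := by positivity
  have t2 : 0 ≤ C2 * A 0 := by positivity
  have t3 : 0 ≤ C1 * A J := by positivity
  have t4 : 0 ≤ C2 * A J := by positivity
  have e : (C1 + C2 + 1) * (A 0 + A J) = C1 * A 0 + C2 * A 0 + C1 * A J + C2 * A J + A 0 + A J := by ring
  rw [e]
  have hcase : j = 0 ∨ j = 1 ∨ j = 2 := by omega
  rcases hcase with rfl | rfl | rfl
  · linarith
  · linarith
  · linarith

/-- **L1J** -/
theorem L1J (hL1A : Pool.Agent.ZT.L1A_stmt) : L1J_stmt := by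
  intro J hJ
  obtain ⟨C, hC, h⟩ := L1J_C J hJ
  refine ⟨C, hC, ?_⟩
  intro F a ℓ hℓ hd hc j hj2
  set A : ℕ → ℝ := fun i => if i ≤ J then ℓ ^ i * ∫ v in a..(a + ℓ), ‖F i v‖ else 0 with hA
  have hcont : ∀ i, i ≤ J → ContinuousOn (F i) (Icc a (a + ℓ)) := by
    intro i hi
    rcases Nat.lt_or_ge i J with h7 | h7
    · exact fun x hx => (hd i h7 x hx).continuousAt.continuousWithinAt
    · have : i = J := by omega
      rw [this]
      exact hc
  have hAe : ∀ i, i ≤ J → A i = ℓ ^ i * ∫ v in a..(a + ℓ), ‖F i v‖ := fun i hi => by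
    rw [hA]
    exact if_pos hi
  have hP : L1J_P J A := by
    refine ⟨fun i => ?_, fun i hi hi6 k hk => ?_⟩
    · rw [hA]
      simp only
      split_ifs
      · exact mul_nonneg (by positivity)
          (intervalIntegral.integral_nonneg (by linarith) fun _ _ => norm_nonneg _)
      · exact le_rfl
    · obtain ⟨i', rfl⟩ : ∃ i', i = i' + 1 := ⟨i - 1, by omega⟩
      have h1 := hL1A (F i') (F (i' + 1)) (F (i' + 1 + 1)) a ℓ k hℓ hk
        (fun v hv => ⟨hd i' (by omega) v hv, hd (i' + 1) (by omega) v hv⟩)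
        (hcont _ (by omega))
      have hk' : (0 : ℝ) < k := by exact_mod_cast hk
      rw [Nat.add_sub_cancel, hAe _ (by omega), hAe _ (by omega), hAe _ (by omega)]
      calc ℓ ^ (i' + 1) * ∫ v in a..(a + ℓ), ‖F (i' + 1) v‖
          ≤ ℓ ^ (i' + 1) * (9 * k / ℓ * (∫ v in a..(a + ℓ), ‖F i' v‖) +
            ℓ / k * ∫ v in a..(a + ℓ), ‖F (i' + 1 + 1) v‖) := by gcongr
        _ = 9 * k * (ℓ ^ i' * ∫ v in a..(a + ℓ), ‖F i' v‖) +
            ℓ ^ (i' + 1 + 1) * (∫ v in a..(a + ℓ), ‖F (i' + 1 + 1) v‖) / k := by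
          field_simp
          ring
  have h2 := h A hP j hj2
  rw [hAe j (by omega), hAe 0 (by omega), hAe J le_rfl, pow_zero, one_mul] at h2
  have e : ℓ ^ J = ℓ ^ j * ℓ ^ (J - j) := by
    rw [← pow_add]
    congr 1
    omega
  have hlj : 0 < ℓ ^ j := by positivity
  rw [← mul_le_mul_iff_right₀ hlj]
  refine h2.trans (le_of_eq ?_)
  rw [e]
  field_simp

end Pool.Agent.TW
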