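import Pool.Agent.helper14.TW.SpecK
import Pool.Agent.helper43.ZT.LA7

/-!
# Project TW, row LAJ
-/

set_option autoImplicit false

open Complex MeasureTheory Set

namespace Pool.Agent.TW

open Pool.Agent.BA (Par GG kf vf fV)
open Pool.Agent.ZT (VV gC Bn MC fP LA7_f LA7_core LA7_eqV LA7_eqP)

theorem LAJ (hCHJ : CHJ_stmt) (bKB : Pool.Agent.BA.KB_stmt) (bKD : Pool.Agent.BA.KD_stmt)
    (bGI : Pool.Agent.BA.GI_stmt) : LAJ_stmt := by
  intro J n μ hJ7 hn hμ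
  have hμ1 : Par 1 μ := ⟨by omega, hμ⟩
  set K : ℕ → ℝ := fun j => 1 / (2 * Real.pi) * ∫ t : ℝ, ‖((1 / 20 : ℝ) : ℂ) + t * I‖ ^ j *
    ‖GG μ (((1 / 20 : ℝ) : ℂ) + t * I) / GG μ (1 - (((1 / 20 : ℝ) : ℂ) + t * I))‖ with hK
  have hK0 : ∀ j, 0 ≤ K j := by
    intro j
    rw [hK]
    simp only
    refine mul_nonneg (by positivity) (integral_nonneg fun t => by positivity)
  have hKle : ∀ j, j ≤ J → K j ≤ ∑ i ∈ Finset.range (J + 1), K i := by
    intro j hj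
    exact Finset.single_le_sum (fun i _ => hK0 i) (Finset.mem_range.2 (by omega))
  have hmain : ∀ ε : ℝ, ε * ε = 1 → ∀ j : ℕ, j ≤ J → ∀ (c : ℝ →₀ ℝ) (x : ℝ), 0 < x →
      |LA7_f ε μ j c x| ≤ ((∑ i ∈ Finset.range (J + 1), K i) + 1) * x ^ (-(1 / 20) : ℝ) *
        (∫ y in Ioi (0 : ℝ), y ^ (-(1 / 20) : ℝ) * |LA7_f ε μ 0 c y|) := by
    intro ε hε j hj c x hx
    have h := LA7_core bKB bKD bGI ε hε μ hμ1 j (1 / 20) (by norm_num) (by norm_num) (hCHJ J n j μ hJ7 hn hμ hj) c x hx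
    have hJi : 0 ≤ ∫ y in Ioi (0 : ℝ), y ^ (-(1 / 20) : ℝ) * |LA7_f ε μ 0 c y| :=
      setIntegral_nonneg measurableSet_Ioi fun y hy =>
        mul_nonneg (Real.rpow_nonneg (le_of_lt hy) _) (abs_nonneg _)
    have hxp : 0 ≤ x ^ (-(1 / 20) : ℝ) := Real.rpow_nonneg hx.le _
    refine h.trans ?_
    refine mul_le_mul_of_nonneg_right (mul_le_mul_of_nonneg_right ?_ hxp) hJi
    have := hKle j hj
    rw [hK] at this ⊢
    simp only at this ⊢
    linarith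
  refine ⟨(∑ i ∈ Finset.range (J + 1), K i) + 1, by
    have : 0 ≤ ∑ i ∈ Finset.range (J + 1), K i := Finset.sum_nonneg fun i _ => hK0 i
    linarith, fun j hj c x hx => ⟨?_, ?_⟩⟩
  · have h := hmain (-1) (by norm_num) j hj c x hx
    simp only [LA7_eqV] at h
    exact h
  · have h := hmain 1 (by norm_num) j hj c x hx
    simp only [LA7_eqP] at h
    exact h

end Pool.Agent.TW
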