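import Pool.Agent.helper14.TW.CHJ
import Pool.Agent.helper14.TW.LAJ
import Pool.Agent.helper14.TW.K1
import Pool.Agent.helper14.TW.L1J
import Pool.Agent.helper14.TW.K2
import Pool.Agent.helper38.ZT.All

/-!
# Project TW, kernel block: `K1` and `K2`, closed
-/

set_option autoImplicit false

namespace Pool.Agent.TW

open Pool.Agent.ZT (zt_GDC zt_BNW zt_L1A)

theorem tw_LAJ : LAJ_stmt := LAJ CHJ Pool.Agent.BA.a_KB Pool.Agent.BA.a_KD Pool.Agent.BA.GI

theorem tw_K1 : K1_stmt := K1 tw_LAJ zt_GDC zt_BNW Pool.Agent.BA.a_OR Pool.Agent.BA.a_KC Pool.Agent.BA.a_VD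

theorem tw_K2 : K2_stmt := K2 tw_K1 (L1J zt_L1A) zt_GDC zt_BNW

end Pool.Agent.TW
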