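import Pool.Agent.helper14.TW.SpecK
import Pool.Agent.helper89.BA.CH
import Pool.Agent.helper90.SC.GR
import Pool.Agent.helper51.SC.GRA

/-!
# Project TW, row CHJ
-/

set_option autoImplicit false

open Complex MeasureTheory Set

namespace Pool.Agent.TW

open Pool.Agent.BA (Par GG kf vf fV)
open Pool.Agent.ZT (VV gC Bn MC fP)

theorem CHJ : CHJ_stmt := by
  intro J n j μ hJ hn hμ0 hj
  obtain ⟨C, hC, hG⟩ := (Pool.Agent.SC.GR Pool.Agent.SC.GRA : Pool.Agent.SC.GR_stmt)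
  have hG' : ∀ (w : ℂ) (h : ℝ), 1 / 8 ≤ w.re → 0 ≤ h → h ≤ 1 →
      C⁻¹ * ‖w‖ ^ h * ‖Complex.Gamma w‖ ≤ ‖Complex.Gamma (w + h)‖ := fun w h h1 h2 h3 => (hG w h h1 h2 h3).1
  set K : ℝ := Real.pi ^ (9 / 20 : ℝ) * (19 * C * 3 ^ (9 / 20 : ℝ)) with hK
  have hC0 : 0 < C := by linarith
  have hpi := Real.pi_pos
  have hK0 : 0 < K := by positivity
  have hint : Integrable (fun t : ℝ => K ^ n * (1 + ‖t‖) ^ (-(11 / 10 : ℝ))) := by
    refine (integrable_one_add_norm ?_).const_mul _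
    simp only [Module.finrank_self, Nat.cast_one]
    norm_num
  refine Integrable.mono' hint ?_ (Filter.Eventually.of_forall fun t => ?_)
  · have hline : Measurable (fun t : ℝ => ((1 / 20 : ℝ) : ℂ) + t * I) := by fun_prop
    have h1 : Measurable (fun t : ℝ => GG μ (((1 / 20 : ℝ) : ℂ) + t * I)) := (Pool.Agent.BA.CH_meas μ).comp hline
    have h2 : Measurable (fun t : ℝ => GG μ (1 - (((1 / 20 : ℝ) : ℂ) + t * I))) :=
      (Pool.Agent.BA.CH_meas μ).comp (measurable_const.sub hline)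
    exact ((hline.norm.pow_const j).mul (h1.div h2).norm).aestronglyMeasurable
  · rw [Real.norm_eq_abs, abs_of_nonneg (by positivity), Real.norm_eq_abs]
    have hT1 : 1 ≤ 1 + |t| := by linarith [abs_nonneg t]
    have hT : 0 < 1 + |t| := by linarith
    have hs : ‖((1 / 20 : ℝ) : ℂ) + t * I‖ ≤ 1 + |t| := by
      refine (norm_add_le _ _).trans ?_
      rw [norm_mul, Complex.norm_I, mul_one, Complex.norm_real, Complex.norm_real, Real.norm_eq_abs,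
        Real.norm_eq_abs, abs_of_pos (by norm_num : (0 : ℝ) < 1 / 20)]
      linarith [abs_nonneg t]
    have hTp : 0 < (1 + |t|) ^ (-(9 / 20) : ℝ) := Real.rpow_pos_of_pos hT _
    have hq : ‖GG μ (((1 / 20 : ℝ) : ℂ) + t * I) / GG μ (1 - (((1 / 20 : ℝ) : ℂ) + t * I))‖ ≤
        (K * (1 + |t|) ^ (-(9 / 20) : ℝ)) ^ n := by
      rw [norm_div]
      refine div_le_of_le_mul₀ (norm_nonneg _) (by positivity) ?_
      unfold GG
      rw [norm_prod, norm_prod]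
      calc ∏ i, ‖Gammaℝ ((((1 / 20 : ℝ) : ℂ) + t * I) + (μ i : ℂ))‖
          ≤ ∏ i, (K * (1 + |t|) ^ (-(9 / 20) : ℝ)) * ‖Gammaℝ ((1 - (((1 / 20 : ℝ) : ℂ) + t * I)) + (μ i : ℂ))‖ :=
            Finset.prod_le_prod (fun i _ => norm_nonneg _) fun i _ => Pool.Agent.BA.CH_fac C hC hG' (μ i) t (hμ0 i)
        _ = (K * (1 + |t|) ^ (-(9 / 20) : ℝ)) ^ n *
            ∏ i, ‖Gammaℝ ((1 - (((1 / 20 : ℝ) : ℂ) + t * I)) + (μ i : ℂ))‖ := by
            rw [Finset.prod_mul_distrib, Finset.prod_const, Finset.card_univ, Fintype.card_fin]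
    have hpow : (1 + |t|) ^ j * ((1 + |t|) ^ (-(9 / 20) : ℝ)) ^ n ≤ (1 + |t|) ^ (-(11 / 10 : ℝ)) := by
      rw [← Real.rpow_natCast (1 + |t|) j, ← Real.rpow_natCast ((1 + |t|) ^ (-(9 / 20) : ℝ)) n, ← Real.rpow_mul hT.le,
        ← Real.rpow_add hT]
      refine Real.rpow_le_rpow_of_exponent_le hT1 ?_
      have h1 : (j : ℝ) ≤ (J : ℝ) := by exact_mod_cast hj
      have h2 : 3 * (J : ℝ) ≤ (n : ℝ) := by exact_mod_cast hn
      have h3 : (7 : ℝ) ≤ (J : ℝ) := by exact_mod_cast hJ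
      linarith
    calc ‖((1 / 20 : ℝ) : ℂ) + t * I‖ ^ j *
        ‖GG μ (((1 / 20 : ℝ) : ℂ) + t * I) / GG μ (1 - (((1 / 20 : ℝ) : ℂ) + t * I))‖
        ≤ (1 + |t|) ^ j * (K * (1 + |t|) ^ (-(9 / 20) : ℝ)) ^ n :=
          mul_le_mul (pow_le_pow_left₀ (norm_nonneg _) hs j) hq (norm_nonneg _) (by positivity)
      _ = K ^ n * ((1 + |t|) ^ j * ((1 + |t|) ^ (-(9 / 20) : ℝ)) ^ n) := by
          rw [mul_pow]
          ring
      _ ≤ K ^ n * (1 + |t|) ^ (-(11 / 10 : ℝ)) := mul_le_mul_of_nonneg_left hpow (by positivity)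

end Pool.Agent.TW
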