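import Pool.Agent.helper14.TW.FAM0
import Mathlib.NumberTheory.DirichletCharacter.Orthogonality

/-!
# Project TW, block H: row FAM
-/

set_option autoImplicit false

open Complex
open scoped ComplexConjugate

namespace Pool.Agent.TW

open Pool.Agent.TWG (Good GC LL GAL_stmt)
open DirichletCharacter

theorem FAM_cnt (Ξ : Set DC) (hne : ∀ x ∈ Ξ, x.1 ≠ 0) (R : ℕ) (s : Finset Ξ) (hs : ∀ i ∈ s, i.1.1 = R) :
    s.card ≤ R := by
  classical
  rcases s.eq_empty_or_nonempty with rfl | ⟨i₀, hi₀⟩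
  · simp
  have hR0 : R ≠ 0 := by
    rw [← hs i₀ hi₀]
    exact hne _ i₀.2
  haveI : NeZero R := ⟨hR0⟩
  have h1 : s.card ≤ (Finset.univ : Finset (DirichletCharacter ℂ R)).card := by
    rw [← Finset.card_map ⟨fun i : Ξ => (i.1 : DC), fun a b h => Subtype.ext h⟩]
    rw [← Finset.card_map (s := (Finset.univ : Finset (DirichletCharacter ℂ R)))
      ⟨fun χ : DirichletCharacter ℂ R => (⟨R, χ⟩ : DC), fun a b h => by
        have h2 := Sigma.mk.inj_iff.mp h
        exact eq_of_heq h2.2⟩]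
    apply Finset.card_le_card
    intro x hx
    rw [Finset.mem_map] at hx ⊢
    obtain ⟨i, hi, rfl⟩ := hx
    have hiR := hs i hi
    obtain ⟨⟨r, χ⟩, hi'⟩ := i
    simp only at hiR
    subst hiR
    exact ⟨χ, Finset.mem_univ _, rfl⟩
  have h2 : (Finset.univ : Finset (DirichletCharacter ℂ R)).card = R.totient := by
    rw [← card_eq_totient_of_hasEnoughRootsOfUnity ℂ R, Nat.card_eq_fintype_card, Finset.card_univ]
  exact h1.trans (by rw [h2]; exact Nat.totient_le R)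

theorem FAM (hGAL : GAL_stmt) : FAM_stmt := by
  classical
  intro c₀ hc₀
  obtain ⟨k₀, hk₀, hG⟩ := hGAL c₀ hc₀
  refine ⟨k₀, hk₀, fun k hk => ?_⟩
  obtain ⟨om, c, C, N₀, hc, hC, hN₀, hom0, hom1, homP, hlo, hup, hsum⟩ := hG k hk
  refine ⟨om, c, C, N₀, fun Ξ hΞ => ?_⟩
  have hk3 : 3 ≤ k := hk₀.trans hk
  refine ⟨hk3, hN₀, hc, hC, fun i => Nat.one_le_iff_ne_zero.mpr (hΞ.ne _ i.2), fun i => ?_, fun i m m' => ?_,
    fun i m => DirichletCharacter.norm_le_one _ _, fun i m hm => FAM_unit hm, ?_, ?_, hom0, hom1, homP, hlo, hup, ?_⟩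
  · rw [Nat.cast_one, map_one]
  · rw [Nat.cast_mul, map_mul]
  · exact fun R s hs => FAM_cnt Ξ hΞ.ne R s hs
  · -- orthogonality in intervals
    intro i j hij a b
    have hi0 := hΞ.ne _ i.2
    have hj0 := hΞ.ne _ j.2
    have hne : (i : DC) ≠ j := fun h => hij (Subtype.ext h)
    haveI : NeZero (Nat.lcm i.1.1 j.1.1) := ⟨Nat.lcm_ne_zero hi0 hj0⟩
    have h1 := FAM_Ico (DirichletCharacter.mul (i.1.2)⁻¹ j.1.2)
      (FAM_ne i.1 j.1 hi0 hj0 (hΞ.prim _ i.2) (hΞ.prim _ j.2) hne) a b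
    have h2 : ∀ m ∈ Finset.Ico a b, DirichletCharacter.mul (i.1.2)⁻¹ j.1.2 (m : ZMod (Nat.lcm i.1.1 j.1.1)) =
        conj (i.1.2 (m : ZMod i.1.1)) * j.1.2 (m : ZMod j.1.1) := fun m _ => FAM_val i.1 j.1 hi0 m
    rw [Finset.sum_congr rfl h2] at h1
    refine h1.trans ?_
    exact_mod_cast Nat.le_of_dvd (Nat.pos_of_ne_zero (Nat.mul_ne_zero hi0 hj0)) (Nat.lcm_dvd_mul _ _)
  · -- the rows
    intro N hN i hi s his hs
    have hN3 : 3 ≤ N := hN₀.trans hN
    have hN1 : (1 : ℝ) ≤ N := by exact_mod_cast (by omega : 1 ≤ N)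
    have hi0 := hΞ.ne _ i.2
    have hsq : ∀ j ∈ s, i.1.1 * j.1.1 ≤ N := by
      intro j hj
      have h1 := hs j hj
      have h2 : ((i.1.1 : ℝ) * j.1.1) ≤ N := by nlinarith [sq_nonneg ((i.1.1 : ℝ) - j.1.1)]
      exact_mod_cast h2
    have hnej : ∀ j ∈ s, (i : DC) ≠ j := by
      intro j hj h
      apply his
      rw [Subtype.ext h]
      exact hj
    set Q : Ξ → DC := fun j => ⟨_, quo i.1 j.1⟩ with hQ
    -- the values on the window
    have hval : ∀ j ∈ s, ∀ p ∈ Win k N, om N p ≠ 0 →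
        (Q j).2 (p : ZMod (Q j).1) = conj (i.1.2 (p : ZMod i.1.1)) * j.1.2 (p : ZMod j.1.1) := by
      intro j hj p hp hom
      have hpp := (homP N p hom).1
      have hpN : N < p := by
        have h1 := (Finset.mem_Ioo.mp hp).1
        calc N = N ^ 1 := (pow_one N).symm
          _ ≤ N ^ k := Nat.pow_le_pow_right (by omega) (by omega)
          _ < p := h1
      have hj0 := hΞ.ne _ j.2
      have hle : i.1.1 ≤ N := (Nat.le_mul_of_pos_right _ (Nat.pos_of_ne_zero hj0)).trans (hsq j hj)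
      have hlj : j.1.1 ≤ N := (Nat.le_mul_of_pos_left _ (Nat.pos_of_ne_zero hi0)).trans (hsq j hj)
      refine FAM_quo i.1 j.1 hi0 p ?_ ?_
      · exact (Nat.coprime_of_lt_prime (Nat.pos_of_ne_zero hi0).ne' (by omega) hpp)
      · exact (Nat.coprime_of_lt_prime (Nat.pos_of_ne_zero hj0).ne' (by omega) hpp)
    have hinj : Set.InjOn Q (s : Set Ξ) := by
      intro j hj j' hj' h
      apply Subtype.ext
      have hj0 := hΞ.ne _ j.2
      have hj0' := hΞ.ne _ j'.2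
      refine FAM_eq j.1 j'.1 hj0 hj0' (hΞ.prim _ j.2) (hΞ.prim _ j'.2) (i.1.1 * (j.1.1 * j'.1.1))
        (Nat.mul_ne_zero hi0 (Nat.mul_ne_zero hj0 hj0')) fun m hm => ?_
      have hmi : Nat.Coprime m i.1.1 := Nat.Coprime.coprime_dvd_right (dvd_mul_right _ _) hm
      have hmj : Nat.Coprime m j.1.1 := Nat.Coprime.coprime_dvd_right ⟨i.1.1 * j'.1.1, by ring⟩ hm
      have hmj' : Nat.Coprime m j'.1.1 := Nat.Coprime.coprime_dvd_right ⟨i.1.1 * j.1.1, by ring⟩ hm
      have h1 := FAM_quo i.1 j.1 hi0 m hmi hmj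
      have h2 := FAM_quo i.1 j'.1 hi0 m hmi hmj'
      have h3 : quo i.1 j.1 (m : ZMod _) = quo i.1 j'.1 (m : ZMod _) := by
        have : ∀ x y : DC, x = y → x.2 (m : ZMod x.1) = y.2 (m : ZMod y.1) := by
          rintro x y rfl
          rfl
        exact this _ _ h
      rw [h1, h2] at h3
      have hne0 : conj (i.1.2 (m : ZMod i.1.1)) ≠ 0 := by
        intro h0
        have h4 := FAM_unit (x := i.1) hmi
        rw [map_eq_zero] at h0
        rw [h0, norm_zero] at h4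
        exact zero_ne_one h4
      exact mul_left_cancel₀ hne0 h3
    -- the sum over `s` is part of the sum over all good characters
    set f : DC → ℝ := fun x => ‖∑ p ∈ Win k N, ((om N p : ℝ) : ℂ) * x.2 (p : ZMod x.1)‖ with hf
    have h1 : ∑ j ∈ s, ‖∑ p ∈ Win k N, ((om N p : ℝ) : ℂ) * (conj (i.1.2 (p : ZMod i.1.1)) * j.1.2 (p : ZMod j.1.1))‖ =
        ∑ j ∈ s, f (Q j) := by
      refine Finset.sum_congr rfl fun j hj => ?_
      rw [hf]
      simp only
      congr 1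
      refine Finset.sum_congr rfl fun p hp => ?_
      by_cases hom : om N p = 0
      · rw [hom]
        simp
      · rw [hval j hj p hp hom]
    have h2 : ∑ j ∈ s, f (Q j) = ∑ x ∈ s.image Q, f x := (Finset.sum_image hinj).symm
    have h3 : s.image Q ⊆ (Finset.Icc 2 N).sigma fun q => GC c₀ q := by
      intro x hx
      rw [Finset.mem_image] at hx
      obtain ⟨j, hj, rfl⟩ := hx
      have hj0 := hΞ.ne _ j.2
      obtain ⟨c1, c2⟩ := FAM_cond i.1 j.1 hi0 hj0 (hΞ.prim _ i.2) (hΞ.prim _ j.2) (hnej j hj)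
      rw [Finset.mem_sigma, Finset.mem_Icc]
      refine ⟨⟨c1, c2.trans (hsq j hj)⟩, ?_⟩
      unfold GC
      rw [Finset.mem_filter]
      exact ⟨Finset.mem_univ _, primitive_mul_isPrimitive _ _, hΞ.good _ i.2 _ j.2 (hnej j hj)⟩
    have h4 : ∑ x ∈ s.image Q, f x ≤ ∑ x ∈ (Finset.Icc 2 N).sigma fun q => GC c₀ q, f x :=
      Finset.sum_le_sum_of_subset_of_nonneg h3 fun x _ _ => norm_nonneg _
    rw [Finset.sum_sigma] at h4
    show ∑ j ∈ s, ‖∑ p ∈ Win k N, ((om N p : ℝ) : ℂ) *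
      (conj (i.1.2 (p : ZMod i.1.1)) * j.1.2 (p : ZMod j.1.1))‖ ≤ Pw om k N / 8
    rw [h1, h2]
    exact h4.trans (hsum N hN)

end Pool.Agent.TW
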