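import Pool.Agent.helper14.TW.SpecH

/-!
# Project TW, block H: lemmas on primitive characters
-/

set_option autoImplicit false

open Complex
open scoped ComplexConjugate

namespace Pool.Agent.TW

open Pool.Agent.TWG (Good GC LL)
open DirichletCharacter

theorem FAM_period {M : Type*} [AddCommMonoid M] {q : ℕ} [NeZero q] (f : ZMod q → M) (y : ℕ) :
    ∑ m ∈ Finset.Ico y (y + q), f (m : ZMod q) = ∑ x : ZMod q, f x := by
  classical
  have hinj : Set.InjOn (fun m : ℕ => (m : ZMod q)) (Finset.Ico y (y + q) : Finset ℕ) := by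
    intro a ha b hb hab
    simp only [Finset.coe_Ico, Set.mem_Ico] at ha hb
    have h := (ZMod.natCast_eq_natCast_iff a b q).mp hab
    rcases le_total a b with hle | hle
    · have h1 := (Nat.modEq_iff_dvd' hle).mp h
      rcases Nat.eq_zero_or_pos (b - a) with h0 | h0
      · omega
      · have := Nat.le_of_dvd h0 h1
        omega
    · have h1 := (Nat.modEq_iff_dvd' hle).mp h.symm
      rcases Nat.eq_zero_or_pos (a - b) with h0 | h0
      · omega
      · have := Nat.le_of_dvd h0 h1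
        omega
  have himg : (Finset.Ico y (y + q)).image (fun m : ℕ => (m : ZMod q)) = Finset.univ := by
    apply Finset.eq_univ_of_card
    rw [Finset.card_image_of_injOn hinj, Nat.card_Ico, ZMod.card]
    omega
  rw [← himg, Finset.sum_image hinj]

theorem FAM_interval {q : ℕ} [NeZero q] (χ : DirichletCharacter ℂ q) (hχ : χ ≠ 1) (L y : ℕ) :
    ‖∑ m ∈ Finset.Ico y (y + L), χ m‖ ≤ q := by
  induction L using Nat.strong_induction_on generalizing y with
  | _ L ih =>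
    by_cases hL : L ≤ q
    · calc ‖∑ m ∈ Finset.Ico y (y + L), χ m‖ ≤ ∑ m ∈ Finset.Ico y (y + L), ‖χ m‖ := norm_sum_le _ _
        _ ≤ ∑ _m ∈ Finset.Ico y (y + L), (1 : ℝ) :=
            Finset.sum_le_sum fun m _ => DirichletCharacter.norm_le_one χ _
        _ = L := by simp
        _ ≤ q := by exact_mod_cast hL
    · push Not at hL
      have hq : 0 < q := Nat.pos_of_ne_zero (NeZero.ne q)
      have e : ∑ m ∈ Finset.Ico y (y + L), χ m
          = ∑ m ∈ Finset.Ico y (y + q), χ m + ∑ m ∈ Finset.Ico (y + q) (y + q + (L - q)), χ m := by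
        have : y + q + (L - q) = y + L := by omega
        rw [this]
        exact (Finset.sum_Ico_consecutive (fun m : ℕ => χ (m : ZMod q)) (by omega) (by omega)).symm
      rw [e, FAM_period (fun x => χ x) y, MulChar.sum_eq_zero_of_ne_one hχ, zero_add]
      exact ih (L - q) (by omega) (y + q)

theorem FAM_Ico {q : ℕ} [NeZero q] (χ : DirichletCharacter ℂ q) (hχ : χ ≠ 1) (a b : ℕ) :
    ‖∑ m ∈ Finset.Ico a b, χ m‖ ≤ q := by
  rcases le_total a b with h | h
  · obtain ⟨L, rfl⟩ := Nat.exists_eq_add_of_le h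
    exact FAM_interval χ hχ L a
  · rw [Finset.Ico_eq_empty_of_le h]
    simp

/-- two primitive characters which agree on all integers prime to `M` are equal -/
theorem FAM_eq (x y : DC) (hx0 : x.1 ≠ 0) (hy0 : y.1 ≠ 0) (hx : x.2.IsPrimitive) (hy : y.2.IsPrimitive) (M : ℕ)
    (hM : M ≠ 0) (h : ∀ m : ℕ, Nat.Coprime m M → x.2 (m : ZMod x.1) = y.2 (m : ZMod y.1)) : x = y := by
  set M' := M * (x.1 * y.1) with hM'
  have hM0 : M' ≠ 0 := Nat.mul_ne_zero hM (Nat.mul_ne_zero hx0 hy0)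
  haveI : NeZero M' := ⟨hM0⟩
  have hxd : x.1 ∣ M' := ⟨M * y.1, by rw [hM']; ring⟩
  have hyd : y.1 ∣ M' := ⟨M * x.1, by rw [hM']; ring⟩
  have hcl : changeLevel hxd x.2 = changeLevel hyd y.2 := by
    refine MulChar.ext fun a => ?_
    have ha : Nat.Coprime (a : ZMod M').val M' := ZMod.val_coe_unit_coprime a
    have hav : (((a : ZMod M').val : ℤ) : ZMod M') = (a : ZMod M') := by
      rw [Int.cast_natCast, ZMod.natCast_zmod_val]
    have hac : IsCoprime (((a : ZMod M').val : ℤ)) (M' : ℤ) := Nat.isCoprime_iff_coprime.mpr ha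
    rw [← hav, changeLevel_eq_cast_of_dvd' x.2 hxd hac, changeLevel_eq_cast_of_dvd' y.2 hyd hac, Int.cast_natCast,
      Int.cast_natCast]
    exact h _ (Nat.Coprime.coprime_dvd_right ⟨x.1 * y.1, rfl⟩ ha)
  have hc : x.1 = y.1 := by
    have h1 := conductor_changeLevel x.2 hxd
    have h2 := conductor_changeLevel y.2 hyd
    rw [hcl, h2] at h1
    rw [(isPrimitive_def _).mp hx, (isPrimitive_def _).mp hy] at h1
    exact h1.symm
  obtain ⟨r, χ⟩ := x
  obtain ⟨r', ψ⟩ := y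
  simp only at hc
  subst hc
  simp only at hcl
  have := changeLevel_injective hxd hcl
  rw [this]

/-- values of the product `χ̄ ψ` -/
theorem FAM_val (x y : DC) (hx0 : x.1 ≠ 0) (m : ℕ) :
    DirichletCharacter.mul (x.2)⁻¹ y.2 (m : ZMod (Nat.lcm x.1 y.1)) =
      conj (x.2 (m : ZMod x.1)) * y.2 (m : ZMod y.1) := by
  haveI : NeZero x.1 := ⟨hx0⟩
  by_cases hc : IsCoprime (m : ℤ) ((Nat.lcm x.1 y.1 : ℕ) : ℤ)
  · unfold DirichletCharacter.mul
    have e : (m : ZMod (Nat.lcm x.1 y.1)) = ((m : ℤ) : ZMod (Nat.lcm x.1 y.1)) := by rw [Int.cast_natCast]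
    rw [MulChar.mul_apply, e, changeLevel_eq_cast_of_dvd' _ _ hc, changeLevel_eq_cast_of_dvd' _ _ hc,
      Int.cast_natCast, Int.cast_natCast]
    congr 1
    have h := MulChar.star_apply' x.2 (m : ZMod x.1)
    rw [← h]
    rfl
  · have h1 : DirichletCharacter.mul (x.2)⁻¹ y.2 (m : ZMod (Nat.lcm x.1 y.1)) = 0 := by
      have := (apply_eq_zero_iff (DirichletCharacter.mul (x.2)⁻¹ y.2) (m : ℤ)).mpr hc
      rw [Int.cast_natCast] at this
      exact this
    rw [h1]
    by_cases hcx : IsCoprime (m : ℤ) (x.1 : ℤ)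
    · have hcy : ¬ IsCoprime (m : ℤ) (y.1 : ℤ) := by
        intro hcy
        apply hc
        rw [Nat.isCoprime_iff_coprime] at hcx hcy ⊢
        exact Nat.Coprime.coprime_dvd_right (Nat.lcm_dvd_mul x.1 y.1) (Nat.Coprime.mul_right hcx hcy)
      have := (apply_eq_zero_iff y.2 (m : ℤ)).mpr hcy
      rw [Int.cast_natCast] at this
      rw [this, mul_zero]
    · have := (apply_eq_zero_iff x.2 (m : ℤ)).mpr hcx
      rw [Int.cast_natCast] at this
      rw [this, map_zero, zero_mul]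

/-- values of `quo` at integers prime to the moduli -/
theorem FAM_quo (x y : DC) (hx0 : x.1 ≠ 0) (m : ℕ) (hmx : Nat.Coprime m x.1) (hmy : Nat.Coprime m y.1) :
    quo x y (m : ZMod (DirichletCharacter.mul (x.2)⁻¹ y.2).conductor) =
      conj (x.2 (m : ZMod x.1)) * y.2 (m : ZMod y.1) := by
  have hc : IsCoprime (m : ℤ) ((Nat.lcm x.1 y.1 : ℕ) : ℤ) := by
    rw [Nat.isCoprime_iff_coprime]
    exact Nat.Coprime.coprime_dvd_right (Nat.lcm_dvd_mul x.1 y.1) (Nat.Coprime.mul_right hmx hmy)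
  have h := primitiveCharacter_apply_of_isCoprime (DirichletCharacter.mul (x.2)⁻¹ y.2) hc
  rw [Int.cast_natCast, Int.cast_natCast] at h
  unfold quo
  rw [mul_def, h, FAM_val x y hx0 m]

theorem FAM_unit {x : DC} {m : ℕ} (hm : Nat.Coprime m x.1) : ‖x.2 (m : ZMod x.1)‖ = 1 := by
  have h := DirichletCharacter.unit_norm_eq_one x.2 (ZMod.unitOfCoprime m hm)
  rwa [ZMod.coe_unitOfCoprime] at h

/-- the product `χ̄ ψ` is not principal -/
theorem FAM_ne (x y : DC) (hx0 : x.1 ≠ 0) (hy0 : y.1 ≠ 0) (hx : x.2.IsPrimitive) (hy : y.2.IsPrimitive)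
    (hxy : x ≠ y) : DirichletCharacter.mul (x.2)⁻¹ y.2 ≠ 1 := by
  intro h1
  apply hxy
  refine FAM_eq x y hx0 hy0 hx hy (x.1 * y.1) (Nat.mul_ne_zero hx0 hy0) fun m hm => ?_
  have hmx : Nat.Coprime m x.1 := Nat.Coprime.coprime_dvd_right (dvd_mul_right _ _) hm
  have hmy : Nat.Coprime m y.1 := Nat.Coprime.coprime_dvd_right (dvd_mul_left _ _) hm
  have hml : Nat.Coprime m (Nat.lcm x.1 y.1) := Nat.Coprime.coprime_dvd_right (Nat.lcm_dvd_mul x.1 y.1) hm
  have h := FAM_val x y hx0 m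
  rw [h1, ← ZMod.coe_unitOfCoprime m hml, MulChar.one_apply_coe] at h
  have hn := FAM_unit hmx
  have h3 : x.2 (m : ZMod x.1) * conj (x.2 (m : ZMod x.1)) = 1 := by
    rw [Complex.mul_conj, Complex.normSq_eq_norm_sq, hn]
    simp
  calc x.2 (m : ZMod x.1) = x.2 (m : ZMod x.1) * 1 := (mul_one _).symm
    _ = x.2 (m : ZMod x.1) * (conj (x.2 (m : ZMod x.1)) * y.2 (m : ZMod y.1)) := by rw [← h]
    _ = (x.2 (m : ZMod x.1) * conj (x.2 (m : ZMod x.1))) * y.2 (m : ZMod y.1) := by ring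
    _ = y.2 (m : ZMod y.1) := by rw [h3, one_mul]

/-- the conductor of the quotient -/
theorem FAM_cond (x y : DC) (hx0 : x.1 ≠ 0) (hy0 : y.1 ≠ 0) (hx : x.2.IsPrimitive) (hy : y.2.IsPrimitive)
    (hxy : x ≠ y) : 2 ≤ (DirichletCharacter.mul (x.2)⁻¹ y.2).conductor ∧
      (DirichletCharacter.mul (x.2)⁻¹ y.2).conductor ≤ x.1 * y.1 := by
  haveI : NeZero (Nat.lcm x.1 y.1) := ⟨Nat.lcm_ne_zero hx0 hy0⟩
  have h0 : (DirichletCharacter.mul (x.2)⁻¹ y.2).conductor ≠ 0 := conductor_ne_zero _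
  have h1 : (DirichletCharacter.mul (x.2)⁻¹ y.2).conductor ≠ 1 := fun h =>
    FAM_ne x y hx0 hy0 hx hy hxy (eq_one_iff_conductor_eq_one.mpr h)
  refine ⟨by omega, ?_⟩
  exact (Nat.le_of_dvd (Nat.pos_of_ne_zero (Nat.lcm_ne_zero hx0 hy0)) (conductor_dvd_level _)).trans
    (Nat.le_of_dvd (Nat.pos_of_ne_zero (Nat.mul_ne_zero hx0 hy0)) (Nat.lcm_dvd_mul _ _))

end Pool.Agent.TW
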