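import Pool.Agent.helper40.TW.SpecG

/-!
# Project TW, block H: families of primitive Dirichlet characters

`DC` is the type of all Dirichlet characters (of all moduli). A set `Ξ` of primitive characters is a `GoodFam c₀` if for all
different `χ`, `ψ` in `Ξ` the primitive character `quo χ ψ` inducing `χ̄ ψ` is non-real or its L-function has no real zeros
`σ > 1 - c₀/log(conductor)`.
-/

set_option autoImplicit false

open Complex

namespace Pool.Agent.TW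

open Pool.Agent.TWG (Good GC LL)

/-- Dirichlet characters of all moduli -/
abbrev DC : Type := Σ r : ℕ, DirichletCharacter ℂ r

/-- the primitive character inducing `χ̄ ψ` -/
noncomputable def quo (x y : DC) : DirichletCharacter ℂ (DirichletCharacter.mul (x.2)⁻¹ y.2).conductor :=
  DirichletCharacter.primitive_mul (x.2)⁻¹ y.2

/-- primitive characters such that the quotients of different ones are good -/
structure GoodFam (c₀ : ℝ) (Ξ : Set DC) : Prop where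
  ne : ∀ x ∈ Ξ, x.1 ≠ 0
  prim : ∀ x ∈ Ξ, x.2.IsPrimitive
  good : ∀ x ∈ Ξ, ∀ y ∈ Ξ, x ≠ y → Good c₀ (quo x y)

/-- **FAM**: from GAL. -/
def FAM_stmt : Prop := ∀ c₀ : ℝ, 0 < c₀ → ∃ k₀ : ℕ, 3 ≤ k₀ ∧ ∀ k : ℕ, k₀ ≤ k →
  ∃ (om : ℕ → ℕ → ℝ) (c C : ℝ) (N₀ : ℕ), ∀ Ξ : Set DC, GoodFam c₀ Ξ →
    Fam k N₀ c C om (fun i : Ξ => i.1.1) (fun (i : Ξ) (m : ℕ) => i.1.2 (m : ZMod i.1.1))

/-- **ODD**: all primitive characters of odd order. -/
def ODD_stmt : Prop := ∀ c₀ : ℝ, GoodFam c₀ {x : DC | x.1 ≠ 0 ∧ x.2.IsPrimitive ∧ Odd (orderOf x.2)}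

/-- **RAM**: all primitive characters whose conductor is composed of primes dividing `m`. -/
def RAM_stmt : Prop := ∀ m : ℕ, 0 < m → ∃ c₀ : ℝ, 0 < c₀ ∧
  GoodFam c₀ {x : DC | x.1 ≠ 0 ∧ x.2.IsPrimitive ∧ ∀ p : ℕ, p.Prime → p ∣ x.1 → p ∣ m}

/-- **NSZ**: all primitive characters, if there are no Siegel zeros. -/
def NSZ_stmt : Prop := ∀ c₀ : ℝ,
  (∀ (q : ℕ) (χ : DirichletCharacter ℂ q), 2 ≤ q → χ.IsPrimitive → χ ^ 2 = 1 →
    ∀ σ : ℝ, 1 - c₀ / Real.log q < σ → LL χ (σ : ℂ) ≠ 0) →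
  GoodFam c₀ {x : DC | x.1 ≠ 0 ∧ x.2.IsPrimitive}

end Pool.Agent.TW
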