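import Pool.Agent.helper1.TW.Defs
import Pool.Agent.helper38.ZT.SpecG

/-!
# Project TW, kernel block: `K1` and `K2` for a general number `J` of derivatives

(adaptations of ZT: CH7, LA7, GVC, L1B, INC)
-/

set_option autoImplicit false

open Complex MeasureTheory Set

namespace Pool.Agent.TW

open Pool.Agent.BA (Par GG kf vf fV)
open Pool.Agent.ZT (VV gC Bn MC fP)

/-- **CHJ**: as ZT.CH7; `J - 9n/20 ≤ J - 27J/20 < -11/10`. -/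
def CHJ_stmt : Prop := ∀ (J n j : ℕ) (μ : Fin n → ℝ), 7 ≤ J → 3 * J ≤ n → (∀ i, 0 ≤ μ i) → j ≤ J →
  Integrable (fun t : ℝ => ‖((1 / 20 : ℝ) : ℂ) + t * I‖ ^ j *
    ‖GG μ (((1 / 20 : ℝ) : ℂ) + t * I) / GG μ (1 - (((1 / 20 : ℝ) : ℂ) + t * I))‖)

/-- **LAJ**: as ZT.LA7. -/
def LAJ_stmt : Prop := ∀ (J n : ℕ) (μ : Fin n → ℝ), 7 ≤ J → 3 * J ≤ n → (∀ i, 0 ≤ μ i) → ∃ C : ℝ, 0 < C ∧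
  ∀ j : ℕ, j ≤ J → ∀ (c : ℝ →₀ ℝ) (x : ℝ), 0 < x →
  |fV μ j c x| ≤ C * x ^ (-(1 / 20) : ℝ) * (∫ y in Ioi (0 : ℝ), y ^ (-(1 / 20) : ℝ) * |fV μ 0 c y|) ∧
  |fP μ j c x| ≤ C * x ^ (-(1 / 20) : ℝ) * ∫ y in Ioi (0 : ℝ), y ^ (-(1 / 20) : ℝ) * |fP μ 0 c y|

/-- **L1J**: as ZT.L1B, for any order `J ≥ 3`. -/
def L1J_stmt : Prop := ∀ J : ℕ, 3 ≤ J → ∃ C : ℝ, 0 < C ∧ ∀ (F : ℕ → ℝ → ℂ) (a ℓ : ℝ), 0 < ℓ →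
  (∀ i : ℕ, i < J → ∀ v ∈ Icc a (a + ℓ), HasDerivAt (F i) (F (i + 1) v) v) → ContinuousOn (F J) (Icc a (a + ℓ)) →
  ∀ j : ℕ, j ≤ 2 → ∫ v in a..(a + ℓ), ‖F j v‖ ≤
    C * ((∫ v in a..(a + ℓ), ‖F 0 v‖) / ℓ ^ j + ℓ ^ (J - j) * ∫ v in a..(a + ℓ), ‖F J v‖)

end Pool.Agent.TW
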